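import Pool.Agent.H295R3.D6.Stmts
import Pool.Agent.Helper112.LS

/-! TASK LS of project H295-D6: large sieve in variance form, products of primes as moduli -/

set_option autoImplicit false

open Finset

namespace Pool.Agent.H174R3.D6LS

open Pool.Agent.Helper112

/-- orthogonality -/
lemma orth (q : ℕ) (hq : 0 < q) (m : ℤ) :
    ∑ a ∈ range q, ee ((a : ℝ) * ((m : ℝ) / q)) = if (q : ℤ) ∣ m then (q : ℂ) else 0 := by
  have hqR : (q : ℝ) ≠ 0 := by positivity
  split_ifs with h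
  · obtain ⟨k, rfl⟩ := h
    have : ∀ a ∈ range q, ee ((a : ℝ) * (((q * k : ℤ) : ℝ) / q)) = 1 := by
      intro a _
      have e : (a : ℝ) * (((q * k : ℤ) : ℝ) / q) = ((a * k : ℤ) : ℝ) := by
        push_cast
        field_simp
      rw [e, ls_ee_int]
    rw [Finset.sum_congr rfl this]
    simp
  · have h1 : ∀ a ∈ range q, ee ((a : ℝ) * ((m : ℝ) / q)) = ee ((m : ℝ) / q) ^ a :=
      fun a _ => ls_ee_nat_mul a _
    rw [Finset.sum_congr rfl h1]
    have h2 : ee ((m : ℝ) / q) ≠ 1 := by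
      intro h3
      obtain ⟨n, hn⟩ := ls_ee_eq_one h3
      apply h
      refine ⟨n, ?_⟩
      have : (m : ℝ) = ((q * n : ℤ) : ℝ) := by
        push_cast
        rw [div_eq_iff hqR] at hn
        linarith
      exact_mod_cast this
    have h3 := geom_sum_mul (ee ((m : ℝ) / q)) q
    have h4 : ee ((m : ℝ) / q) ^ q = 1 := by
      rw [← ls_ee_nat_mul]
      have : (q : ℝ) * ((m : ℝ) / q) = m := by field_simp
      rw [this, ls_ee_int]
    rw [h4, sub_self] at h3
    exact (mul_eq_zero.mp h3).resolve_right (sub_ne_zero.mpr h2)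

/-- Fourier coefficients of the indicator function of `I` modulo `q` -/
noncomputable def fc (q : ℕ) (I : Finset ℕ) (a : ℕ) : ℂ :=
  (1 / (q : ℂ)) * ∑ b ∈ I, ee (-((a : ℝ) * b / q))

lemma fc_zero (q : ℕ) (I : Finset ℕ) : fc q I 0 = (I.card : ℂ) / q := by
  unfold fc
  simp [ls_ee_zero]
  ring

lemma fc_inv (q : ℕ) (hq : 0 < q) (I : Finset ℕ) (hI : I ⊆ range q) (n : ℕ) :
    ∑ a ∈ range q, fc q I a * ee ((n : ℝ) * ((a : ℝ) / q)) = if n % q ∈ I then 1 else 0 := by
  have hqR : (q : ℝ) ≠ 0 := by positivity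
  have hqC : (q : ℂ) ≠ 0 := by exact_mod_cast hq.ne'
  have h1 : ∀ a ∈ range q, fc q I a * ee ((n : ℝ) * ((a : ℝ) / q)) =
      ∑ b ∈ I, (1 / (q : ℂ)) * ee ((a : ℝ) * (((n : ℤ) - (b : ℤ) : ℤ) / q)) := by
    intro a _
    unfold fc
    rw [Finset.mul_sum, Finset.sum_mul]
    refine Finset.sum_congr rfl fun b _ => ?_
    rw [mul_assoc, ← ls_ee_add]
    congr 2
    push_cast
    field_simp
    ring
  rw [Finset.sum_congr rfl h1, Finset.sum_comm]
  have h2 : ∀ b ∈ I, ∑ a ∈ range q, (1 / (q : ℂ)) * ee ((a : ℝ) * (((n : ℤ) - (b : ℤ) : ℤ) / q)) =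
      if b = n % q then 1 else 0 := by
    intro b hb
    rw [← Finset.mul_sum, orth q hq]
    have hbq := mem_range.mp (hI hb)
    have h3 : ((q : ℤ) ∣ (n : ℤ) - (b : ℤ)) ↔ b = n % q := by
      rw [← Int.modEq_iff_dvd]
      constructor
      · intro h
        have h4 : b ≡ n [MOD q] := by exact_mod_cast h
        have h5 : b % q = n % q := h4
        rwa [Nat.mod_eq_of_lt hbq] at h5
      · intro h
        have h4 : b ≡ n [MOD q] := by
          show b % q = n % q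
          rw [h, Nat.mod_mod]
        exact_mod_cast h4
    simp only [h3]
    split_ifs
    · field_simp
    · simp
  rw [Finset.sum_congr rfl h2, Finset.sum_ite_eq' ]

lemma fc_parseval (q : ℕ) (hq : 0 < q) (I : Finset ℕ) (hI : I ⊆ range q) :
    ∑ a ∈ range q, ‖fc q I a‖ ^ 2 = (I.card : ℝ) / q := by
  have hqR : (q : ℝ) ≠ 0 := by positivity
  have hqC : (q : ℂ) ≠ 0 := by exact_mod_cast hq.ne'
  have key : ((∑ a ∈ range q, ‖fc q I a‖ ^ 2 : ℝ) : ℂ) = (((I.card : ℝ) / q : ℝ) : ℂ) := by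
    push_cast
    have h1 : ∀ a ∈ range q, ((‖fc q I a‖ : ℂ)) ^ 2 =
        ∑ b ∈ I, ∑ b' ∈ I, (1 / (q : ℂ)) ^ 2 * ee ((a : ℝ) * (((b' : ℤ) - (b : ℤ) : ℤ) / q)) := by
      intro a _
      rw [← Complex.mul_conj']
      unfold fc
      rw [map_mul, map_sum]
      have e : (starRingEnd ℂ) (1 / (q : ℂ)) = 1 / (q : ℂ) := by simp
      rw [e, mul_mul_mul_comm, Finset.sum_mul_sum, Finset.mul_sum]
      refine Finset.sum_congr rfl fun b _ => ?_
      rw [Finset.mul_sum]
      refine Finset.sum_congr rfl fun b' _ => ?_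
      rw [ls_conj_ee, ← ls_ee_add, ← pow_two]
      congr 2
      push_cast
      field_simp
      ring
    rw [Finset.sum_congr rfl h1, Finset.sum_comm]
    have h2 : ∀ b ∈ I, ∑ a ∈ range q, ∑ b' ∈ I, (1 / (q : ℂ)) ^ 2 *
        ee ((a : ℝ) * (((b' : ℤ) - (b : ℤ) : ℤ) / q)) = 1 / (q : ℂ) := by
      intro b hb
      rw [Finset.sum_comm]
      have hbq := mem_range.mp (hI hb)
      have h3 : ∀ b' ∈ I, ∑ a ∈ range q, (1 / (q : ℂ)) ^ 2 *
          ee ((a : ℝ) * (((b' : ℤ) - (b : ℤ) : ℤ) / q)) = if b' = b then 1 / (q : ℂ) else 0 := by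
        intro b' hb'
        have hbq' := mem_range.mp (hI hb')
        rw [← Finset.mul_sum, orth q hq]
        have h4 : ((q : ℤ) ∣ (b' : ℤ) - (b : ℤ)) ↔ b' = b := by
          constructor
          · intro h
            have := Int.eq_zero_of_abs_lt_dvd h (by rw [abs_lt]; constructor <;> omega)
            omega
          · rintro rfl
            simp
        simp only [h4]
        split_ifs
        · field_simp
        · simp
      rw [Finset.sum_congr rfl h3, Finset.sum_ite_eq' , if_pos hb]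
    rw [Finset.sum_congr rfl h2, Finset.sum_const, nsmul_eq_mul]
    ring
  exact_mod_cast key

/-- coefficient with `1` at zero -/
noncomputable def cc (q : ℕ) (I : Finset ℕ) (a : ℕ) : ℂ := if a = 0 then 1 else fc q I a

/-- frequencies of the prime `q` for the modulus `∏ s` -/
def tt (s : Finset ℕ) (q : ℕ) : Finset ℕ := if q ∈ s then Ioo 0 q else {0}

lemma range_eq (q : ℕ) (hq : 0 < q) : range q = insert 0 (Ioo 0 q) := by
  ext x
  simp only [mem_range, mem_insert, mem_Ioo]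
  omega

lemma cc_inv (q : ℕ) (hq : 0 < q) (I : Finset ℕ) (hI : I ⊆ range q) (s : Finset ℕ) (n : ℕ) :
    ∑ a ∈ tt s q, cc q I a * ee ((n : ℝ) * ((a : ℝ) / q)) =
      if q ∈ s then (((if n % q ∈ I then (1 : ℝ) else 0) - (I.card : ℝ) / q : ℝ) : ℂ) else 1 := by
  unfold tt
  by_cases h : q ∈ s
  · rw [if_pos h, if_pos h]
    have h1 := fc_inv q hq I hI n
    rw [range_eq q hq, Finset.sum_insert (by simp), fc_zero] at h1
    simp only [Nat.cast_zero, zero_div, mul_zero, ls_ee_zero, mul_one] at h1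
    have h2 : ∑ a ∈ Ioo 0 q, cc q I a * ee ((n : ℝ) * ((a : ℝ) / q)) =
        ∑ a ∈ Ioo 0 q, fc q I a * ee ((n : ℝ) * ((a : ℝ) / q)) := by
      refine Finset.sum_congr rfl fun a ha => ?_
      have : a ≠ 0 := by
        have := (mem_Ioo.mp ha).1
        omega
      simp [cc, this]
    rw [h2, eq_sub_of_add_eq' h1]
    split_ifs <;> push_cast <;> rfl
  · rw [if_neg h, if_neg h]
    simp [cc, ls_ee_zero]

lemma cc_parseval (q : ℕ) (hq : 0 < q) (I : Finset ℕ) (hI : I ⊆ range q) (s : Finset ℕ) :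
    ∑ a ∈ tt s q, ‖cc q I a‖ ^ 2 ≤ if q ∈ s then (I.card : ℝ) / q else 1 := by
  unfold tt
  split_ifs with h
  · rw [← fc_parseval q hq I hI]
    have h2 : ∑ a ∈ Ioo 0 q, ‖cc q I a‖ ^ 2 = ∑ a ∈ Ioo 0 q, ‖fc q I a‖ ^ 2 := by
      refine Finset.sum_congr rfl fun a ha => ?_
      have : a ≠ 0 := by
        have := (mem_Ioo.mp ha).1
        omega
      simp [cc, this]
    rw [h2]
    apply Finset.sum_le_sum_of_subset_of_nonneg
    · intro x hx
      rw [mem_Ioo] at hx
      rw [mem_range]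
      exact hx.2
    · intro i _ _
      positivity
  · simp [cc]

/-- a non-integral fraction with denominator `D ≤ K` is separated from the integers -/
lemma sep_of_frac (K D : ℕ) (hD : 0 < D) (hDK : D ≤ K) (m : ℤ)
    (h : ¬ (D : ℤ) ∣ m) : lsSep K ((m : ℝ) / D) := by
  have hDR : (0 : ℝ) < D := by exact_mod_cast hD
  have hKR : (0 : ℝ) < K := lt_of_lt_of_le hDR (by exact_mod_cast hDK)
  have hinv : 1 / (K : ℝ) ≤ 1 / (D : ℝ) :=
    one_div_le_one_div_of_le hDR (by exact_mod_cast hDK)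
  have e : Int.fract ((m : ℝ) / D) = ((m % (D : ℤ) : ℤ) : ℝ) / (D : ℝ) :=
    Int.fract_div_intCast_eq_div_intCast_mod
  have h0 : m % (D : ℤ) ≠ 0 := fun h' => h (Int.dvd_of_emod_eq_zero h')
  have h1 : 0 ≤ m % (D : ℤ) := Int.emod_nonneg _ (by omega)
  have h2 : m % (D : ℤ) < D := Int.emod_lt_of_pos _ (by omega)
  have h3 : 1 ≤ m % (D : ℤ) := by omega
  have h4 : m % (D : ℤ) ≤ D - 1 := by omega
  unfold lsSep
  rw [e]
  constructor
  · refine le_trans hinv ?_
    rw [div_le_div_iff_of_pos_right hDR]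
    exact_mod_cast h3
  · have h5 : ((m % (D : ℤ) : ℤ) : ℝ) ≤ (D : ℝ) - 1 := by exact_mod_cast h4
    have h6 : ((m % (D : ℤ) : ℤ) : ℝ) / (D : ℝ) ≤ ((D : ℝ) - 1) / D := by
      rw [div_le_div_iff_of_pos_right hDR]
      exact h5
    have h7 : ((D : ℝ) - 1) / D = 1 - 1 / (D : ℝ) := by
      rw [sub_div, div_self hDR.ne']
    linarith

lemma ee_sum {ι : Type*} (s : Finset ι) (f : ι → ℝ) : ee (∑ i ∈ s, f i) = ∏ i ∈ s, ee (f i) := by
  classical
  induction s using Finset.induction_on with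
  | empty => simp [ls_ee_zero]
  | insert a s ha ih => rw [Finset.sum_insert ha, Finset.prod_insert ha, ls_ee_add, ih]

lemma frac_sum (s : Finset ℕ) (y : ℕ → ℤ) (D : ℕ) (hD : 0 < D) (h : ∀ q ∈ s, q ∣ D) :
    ∑ q ∈ s, (y q : ℝ) / q = ((∑ q ∈ s, y q * ((D / q : ℕ) : ℤ) : ℤ) : ℝ) / D := by
  rw [Int.cast_sum, Finset.sum_div]
  refine Finset.sum_congr rfl fun q hq => ?_
  obtain ⟨k, hk⟩ := h q hq
  have hq0 : 0 < q := by
    rcases Nat.eq_zero_or_pos q with h0 | h0
    · subst h0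
      simp at hk
      omega
    · exact h0
  have hk0 : 0 < k := by
    rcases Nat.eq_zero_or_pos k with h0 | h0
    · subst h0
      simp at hk
      omega
    · exact h0
  have hqR : (q : ℝ) ≠ 0 := by positivity
  have hkR : (k : ℝ) ≠ 0 := by positivity
  have e : ((D / q : ℕ) : ℝ) = k := by
    rw [hk, Nat.mul_div_cancel_left _ hq0]
  rw [Int.cast_mul, Int.cast_natCast, e, show ((D : ℕ) : ℝ) = (q : ℝ) * k by rw [hk]; push_cast; ring]
  field_simp

lemma int_zero (U : Finset ℕ) (hU : ∀ q ∈ U, q.Prime) (e : ℕ → ℤ) (k : ℤ)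
    (h : ∑ q ∈ U, (e q : ℝ) / q = k) (q₀ : ℕ) (h₀ : q₀ ∈ U) : (q₀ : ℤ) ∣ e q₀ := by
  classical
  set D : ℕ := ∏ q ∈ U, q with hD
  have hD0 : 0 < D := Finset.prod_pos fun q hq => (hU q hq).pos
  have hDR : (D : ℝ) ≠ 0 := by positivity
  rw [frac_sum U e D hD0 (fun q hq => Finset.dvd_prod_of_mem _ hq), div_eq_iff hDR] at h
  have h1 : ∑ q ∈ U, e q * ((D / q : ℕ) : ℤ) = k * D := by exact_mod_cast h
  rw [← Finset.add_sum_erase U _ h₀] at h1
  have h2 : (q₀ : ℤ) ∣ ∑ q ∈ U.erase q₀, e q * ((D / q : ℕ) : ℤ) := by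
    apply Finset.dvd_sum
    intro q hq
    rw [mem_erase] at hq
    apply Dvd.dvd.mul_left
    have h3 : D / q = ∏ x ∈ U.erase q, x := by
      rw [hD, ← Finset.mul_prod_erase U _ hq.2, Nat.mul_div_cancel_left _ (hU q hq.2).pos]
    rw [h3]
    have h4 : q₀ ∣ ∏ x ∈ U.erase q, x :=
      Finset.dvd_prod_of_mem _ (mem_erase.mpr ⟨Ne.symm hq.1, h₀⟩)
    exact_mod_cast h4
  have h5 : (q₀ : ℤ) ∣ k * D := by
    apply Dvd.dvd.mul_left
    have : q₀ ∣ D := Finset.dvd_prod_of_mem _ h₀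
    exact_mod_cast this
  have h6 : (q₀ : ℤ) ∣ e q₀ * ((D / q₀ : ℕ) : ℤ) := by
    have := dvd_sub h5 h2
    rwa [← h1, add_sub_cancel_right] at this
  have h7 : D / q₀ = ∏ x ∈ U.erase q₀, x := by
    rw [hD, ← Finset.mul_prod_erase U _ h₀, Nat.mul_div_cancel_left _ (hU q₀ h₀).pos]
  rw [h7] at h6
  have h8 : Nat.Coprime q₀ (∏ x ∈ U.erase q₀, x) := by
    apply Nat.Coprime.prod_right
    intro x hx
    rw [mem_erase] at hx
    exact (Nat.coprime_primes (hU q₀ h₀) (hU x hx.2)).mpr (Ne.symm hx.1)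
  have h9 : IsCoprime (q₀ : ℤ) ((∏ x ∈ U.erase q₀, x : ℕ) : ℤ) := by
    exact_mod_cast Nat.isCoprime_iff_coprime.mpr h8
  exact h9.dvd_of_dvd_mul_right h6

open Pool.Agent.H295R3.D6 in
theorem taskLS : TaskLS := by
  intro X Q P I S w hP hI hS
  classical
  rcases S.eq_empty_or_nonempty with hS0 | ⟨s₀, hs₀⟩
  · subst hS0
    simp
  have hpos : ∀ s ∈ S, 0 < ∏ q ∈ s, q :=
    fun s hs => Finset.prod_pos fun q hq => (hP q ((hS s hs).1 hq)).pos
  have hQ : 1 ≤ Q := le_trans (hpos s₀ hs₀) (hS s₀ hs₀).2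
  set R : Finset (Σ _ : Finset ℕ, (P → ℕ)) :=
    S.sigma (fun s => Fintype.piFinset (fun q : P => tt s q)) with hR
  set ξ : (Σ _ : Finset ℕ, (P → ℕ)) → ℝ := fun r => ∑ q : P, ((r.2 q : ℕ) : ℝ) / (q : ℕ) with hξ
  set c : (Σ _ : Finset ℕ, (P → ℕ)) → ℂ :=
    fun r => (w r.1 : ℂ) * ∏ q : P, cc q (I q) (r.2 q) with hc
  have hsep : ∀ r ∈ R, ∀ r' ∈ R, r ≠ r' → lsSep (Q ^ 2) (ξ r' - ξ r) := by
    rintro ⟨s, x⟩ hr ⟨s', x'⟩ hr' hne
    simp only [hR, mem_sigma, Fintype.mem_piFinset] at hr hr'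
    set y : ℕ → ℤ := fun q => (if h : q ∈ P then ((x' ⟨q, h⟩ : ℕ) : ℤ) - ((x ⟨q, h⟩ : ℕ) : ℤ) else 0)
      with hy
    have hyP : ∀ q : P, y q = ((x' q : ℕ) : ℤ) - ((x q : ℕ) : ℤ) := by
      intro q
      simp only [hy]
      rw [dif_pos q.2]
    have hx0 : ∀ q : P, (q : ℕ) ∉ s → x q = 0 := by
      intro q hq
      have := hr.2 q
      unfold tt at this
      rw [if_neg hq, mem_singleton] at this
      exact this
    have hx0' : ∀ q : P, (q : ℕ) ∉ s' → x' q = 0 := by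
      intro q hq
      have := hr'.2 q
      unfold tt at this
      rw [if_neg hq, mem_singleton] at this
      exact this
    have hx1 : ∀ q : P, (q : ℕ) ∈ s → 0 < x q ∧ x q < q := by
      intro q hq
      have := hr.2 q
      unfold tt at this
      rw [if_pos hq, mem_Ioo] at this
      exact this
    have hx1' : ∀ q : P, (q : ℕ) ∈ s' → 0 < x' q ∧ x' q < q := by
      intro q hq
      have := hr'.2 q
      unfold tt at this
      rw [if_pos hq, mem_Ioo] at this
      exact this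
    have hsP := (hS s hr.1).1
    have hsP' := (hS s' hr'.1).1
    have hUP : s ∪ s' ⊆ P := Finset.union_subset hsP hsP'
    have e1 : ξ ⟨s', x'⟩ - ξ ⟨s, x⟩ = ∑ q ∈ s ∪ s', (y q : ℝ) / q := by
      simp only [hξ]
      rw [← Finset.sum_sub_distrib]
      have h1 : ∀ q : P, ((x' q : ℕ) : ℝ) / (q : ℕ) - ((x q : ℕ) : ℝ) / (q : ℕ) =
          (fun q : ℕ => (y q : ℝ) / q) q := by
        intro q
        simp only [hyP]
        push_cast
        ring
      rw [Finset.sum_congr rfl fun q _ => h1 q,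
        Finset.sum_coe_sort P (fun q : ℕ => (y q : ℝ) / q)]
      symm
      apply Finset.sum_subset hUP
      intro q hq hqU
      rw [mem_union, not_or] at hqU
      have := hyP ⟨q, hq⟩
      simp only at this
      rw [this, hx0 ⟨q, hq⟩ hqU.1, hx0' ⟨q, hq⟩ hqU.2]
      simp
    set D : ℕ := (∏ q ∈ s, q) * ∏ q ∈ s', q with hD
    have hD0 : 0 < D := Nat.mul_pos (hpos s hr.1) (hpos s' hr'.1)
    have hDQ : D ≤ Q ^ 2 := by
      rw [pow_two]
      exact Nat.mul_le_mul (hS s hr.1).2 (hS s' hr'.1).2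
    have hdvd : ∀ q ∈ s ∪ s', q ∣ D := by
      intro q hq
      rw [mem_union] at hq
      rcases hq with hq | hq
      · exact Dvd.dvd.mul_right (Finset.dvd_prod_of_mem _ hq) _
      · exact Dvd.dvd.mul_left (Finset.dvd_prod_of_mem _ hq) _
    rw [e1, frac_sum (s ∪ s') y D hD0 hdvd]
    apply sep_of_frac _ _ hD0 hDQ
    rintro ⟨k, hk⟩
    apply hne
    have hDR : (D : ℝ) ≠ 0 := by positivity
    have e2 : ∑ q ∈ s ∪ s', (y q : ℝ) / q = k := by
      rw [frac_sum (s ∪ s') y D hD0 hdvd, hk, div_eq_iff hDR]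
      push_cast
      ring
    have hyz : ∀ q : P, y q = 0 := by
      intro q
      by_cases hqU : (q : ℕ) ∈ s ∪ s'
      · have h1 := int_zero (s ∪ s') (fun q hq => hP q (hUP hq)) y k e2 q hqU
        apply Int.eq_zero_of_abs_lt_dvd h1
        rw [hyP, abs_lt]
        have a1 : x q < q := by
          by_cases h : (q : ℕ) ∈ s
          · exact (hx1 q h).2
          · rw [hx0 q h]
            exact (hP q q.2).pos
        have a2 : x' q < q := by
          by_cases h : (q : ℕ) ∈ s'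
          · exact (hx1' q h).2
          · rw [hx0' q h]
            exact (hP q q.2).pos
        constructor <;> omega
      · rw [mem_union, not_or] at hqU
        rw [hyP, hx0 q hqU.1, hx0' q hqU.2]
        simp
    have hxx : x = x' := by
      funext q
      have h1 := hyz q
      rw [hyP] at h1
      omega
    have hss : s = s' := by
      ext q
      constructor
      · intro hq
        by_contra hq'
        have h1 := (hx1 ⟨q, hsP hq⟩ hq).1
        rw [hxx, hx0' ⟨q, hsP hq⟩ hq'] at h1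
        omega
      · intro hq
        by_contra hq'
        have h1 := (hx1' ⟨q, hsP' hq⟩ hq).1
        rw [← hxx, hx0 ⟨q, hsP' hq⟩ hq'] at h1
        omega
    subst hxx hss
    rfl
  have hmain := ls_dual R ξ (Q ^ 2) X (Nat.one_le_pow _ _ hQ) hsep c
  have h1 : ∀ n : ℕ, ∑ r ∈ R, c r * ee (n * ξ r) =
      ((∑ s ∈ S, w s * ∏ q ∈ s, ((if n % q ∈ I q then (1 : ℝ) else 0) - ((I q).card : ℝ) / q) : ℝ) : ℂ) := by
    intro n
    rw [hR, Finset.sum_sigma]
    push_cast
    refine Finset.sum_congr rfl fun s hs => ?_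
    have h2 : ∀ x ∈ Fintype.piFinset (fun q : P => tt s q),
        c ⟨s, x⟩ * ee (n * ξ ⟨s, x⟩) =
        (w s : ℂ) * ∏ q : P, (cc q (I q) (x q) * ee ((n : ℝ) * (((x q : ℕ) : ℝ) / (q : ℕ)))) := by
      intro x _
      simp only [hc, hξ]
      rw [Finset.mul_sum, ee_sum, mul_assoc, ← Finset.prod_mul_distrib]
    rw [Finset.sum_congr rfl h2, ← Finset.mul_sum]
    congr 1
    rw [← Finset.prod_univ_sum (fun q : P => tt s q)
      (fun (q : P) (a : ℕ) => cc q (I q) a * ee ((n : ℝ) * ((a : ℝ) / (q : ℕ))))]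
    rw [Finset.prod_congr rfl fun (q : P) _ =>
      cc_inv q (hP q q.2).pos (I q) (hI q q.2) s n]
    rw [Finset.prod_coe_sort P (fun q : ℕ => if q ∈ s then
      (((if n % q ∈ I q then (1 : ℝ) else 0) - ((I q).card : ℝ) / q : ℝ) : ℂ) else 1),
      Finset.prod_ite_mem, Finset.inter_eq_right.mpr (hS s hs).1]
    refine Finset.prod_congr rfl fun q _ => ?_
    push_cast
    rfl
  have h2 : ∑ r ∈ R, ‖c r‖ ^ 2 ≤ ∑ s ∈ S, w s ^ 2 * ∏ q ∈ s, ((I q).card : ℝ) / q := by
    rw [hR, Finset.sum_sigma]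
    refine Finset.sum_le_sum fun s hs => ?_
    have h3 : ∀ x ∈ Fintype.piFinset (fun q : P => tt s q),
        ‖c ⟨s, x⟩‖ ^ 2 = w s ^ 2 * ∏ q : P, ‖cc q (I q) (x q)‖ ^ 2 := by
      intro x _
      simp only [hc]
      rw [norm_mul, mul_pow, norm_prod, Finset.prod_pow, Complex.norm_real, Real.norm_eq_abs, sq_abs]
    rw [Finset.sum_congr rfl h3, ← Finset.mul_sum]
    apply mul_le_mul_of_nonneg_left _ (sq_nonneg _)
    rw [← Finset.prod_univ_sum (fun q : P => tt s q)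
      (fun (q : P) (a : ℕ) => ‖cc q (I q) a‖ ^ 2)]
    calc ∏ q : P, ∑ a ∈ tt s q, ‖cc q (I q) a‖ ^ 2
        ≤ ∏ q : P, (if (q : ℕ) ∈ s then ((I q).card : ℝ) / (q : ℕ) else 1) := by
          apply Finset.prod_le_prod
          · intro q _
            positivity
          · intro q _
            exact cc_parseval q (hP q q.2).pos (I q) (hI q q.2) s
      _ = ∏ q ∈ s, ((I q).card : ℝ) / q := by
          rw [Finset.prod_coe_sort P (fun q : ℕ => if q ∈ s then ((I q).card : ℝ) / (q : ℕ) else 1),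
            Finset.prod_ite_mem, Finset.inter_eq_right.mpr (hS s hs).1]
  have h4 : ∀ n ∈ Icc 1 X, (∑ s ∈ S, w s * ∏ q ∈ s,
      ((if n % q ∈ I q then (1 : ℝ) else 0) - ((I q).card : ℝ) / q)) ^ 2 =
      ‖∑ r ∈ R, c r * ee (n * ξ r)‖ ^ 2 := by
    intro n _
    rw [h1 n, Complex.norm_real, Real.norm_eq_abs, sq_abs]
  rw [Finset.sum_congr rfl h4]
  refine le_trans hmain ?_
  push_cast
  exact mul_le_mul_of_nonneg_left h2 (by positivity)

end Pool.Agent.H174R3.D6LS
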